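import Pool.Agent.H82.NTC.Pot

/-! # Board `ntc`, row PMT: potentials for the men of kind `T` -/

set_option autoImplicit false

namespace Pool.NTC

open Pool.NET

private theorem pmt_d (S a b : ℤ) (hS : 0 < S) : ∃ d, S * b = S * a + d ∧
    (d = 0 ∨ S ≤ d ∨ d ≤ -S) := by
  refine ⟨S * b - S * a, by ring, ?_⟩
  rcases lt_trichotomy b a with h | h | h
  · right; right
    nlinarith
  · left
    rw [h]; ring
  · right; left
    nlinarith

theorem pmt_thm : PMk Ke.T := by
  intro p e g e' g' h u h1 h2 hr v w s t hs hs8 ht ht8 hlt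
  obtain ⟨q0, gq, gW, We, eM, MS⟩ := h1
  obtain ⟨q0', gq', gW', We', eM', MS'⟩ := h2
  obtain ⟨w, k⟩ := w
  obtain ⟨d, hd, hd'⟩ := pmt_d p.S v.1 w.1 (by omega)
  have key : p.S * v.1 + e + t < fx p e' g' (w, k) + s ∧
      4 * (fx p e' g' (w, k) + s) < 4 * (p.S * v.1 + e) + 8 * p.q - 4 * t + 2 := by
    generalize fx p e' g' (w, k) = X at hlt ⊢
    simp only [prM, fx] at hlt
    rw [abs_lt, abs_of_pos (by omega)] at hlt
    constructor <;> omega
  unfold Rel at hr
  cases k <;> simp only [fx] at key <;> simp only [lvM, sgM] <;> omega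

end Pool.NTC
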